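import Pool.Agent.H786R2.FixTorus
import Pool.Agent.H786R2.EntZero

/-!
# A diffeomorphism all of whose invariant measures satisfy the strict Ruelle inequality

There are a compact surface and a real-analytic diffeomorphism `f` of it such that
`h(ρ) < ∫ χ₊ dρ` for every `f`-invariant Borel probability measure `ρ`. (The surface is the
two-torus and `f` is induced by `(x, y) ↦ (x + sin x cos y / 2, y - cos x sin y / 2)`: an Euler
step for a cellular flow. Every orbit outside eight fixed points drifts to a network of saddle
connections; four of the fixed points are saddles and the other four are sources.)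
-/

open Filter Topology Manifold Set MeasureTheory
open scoped ContDiff NNReal

namespace Pool.Agent.Results.MP_794bd6_an.StrictRuelle

open Pool.Agent.H786R2.Exp Pool.Agent.H786R2.Torus Pool.Agent.H786R2.EntZero
open Pool.Agent.Helper179.KS

attribute [local instance] finrank_real_complex_fact'

lemma finite_S : S.Finite := by
  have h1 : ({z : Circle | (z : ℂ).im = 0 ∨ (z : ℂ).re = 0}).Finite := by
    have h2 : ({z : Circle | (z : ℂ).im = 0 ∨ (z : ℂ).re = 0}) ⊆
        (fun z : Circle => (z : ℂ)) ⁻¹' ({1, -1, Complex.I, -Complex.I} : Set ℂ) := by
      intro z hz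
      have h3 : (z : ℂ).re ^ 2 + (z : ℂ).im ^ 2 = 1 := by
        have := Circle.normSq_coe z
        rw [Complex.normSq_apply] at this
        nlinarith
      simp only [mem_preimage, mem_insert_iff, mem_singleton_iff]
      rcases hz with hz | hz
      · rw [hz] at h3
        have h4 : (z : ℂ).re ^ 2 = 1 := by linarith
        rcases U_horizontal.sq_eq_one_iff_of_ne_zero h4 with h | h
        · left; exact Complex.ext (by simp [h]) (by simp [hz])
        · right; left; exact Complex.ext (by simp [h]) (by simp [hz])
      · rw [hz] at h3
        have h4 : (z : ℂ).im ^ 2 = 1 := by linarith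
        rcases U_horizontal.sq_eq_one_iff_of_ne_zero h4 with h | h
        · right; right; left; exact Complex.ext (by simp [hz]) (by simp [h])
        · right; right; right; exact Complex.ext (by simp [hz]) (by simp [h])
    refine Set.Finite.subset (Set.Finite.preimage ?_ (by simp)) h2
    exact Circle.coe_injective.injOn
  refine (h1.prod h1).subset ?_
  rintro z (⟨h2, h3⟩ | ⟨h2, h3⟩)
  · exact ⟨Or.inl h2, Or.inl h3⟩
  · exact ⟨Or.inr h2, Or.inr h3⟩

lemma integrable_of_finite {X : Type*} [MeasurableSpace X] [MeasurableSingletonClass X]
    {ρ : Measure X} [IsFiniteMeasure ρ] {A : Set X} (hA : A.Finite) (h : ∀ᵐ x ∂ρ, x ∈ A)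
    (χ : X → ℝ) : Integrable χ ρ := by
  classical
  have h1 : χ =ᵐ[ρ] fun x => ∑ a ∈ hA.toFinset, indicator {a} (fun _ => χ a) x := by
    filter_upwards [h] with x hx
    rw [Finset.sum_eq_single x]
    · simp
    · intro b _ hb
      rw [indicator_of_notMem]
      simpa using hb.symm
    · intro hx'
      exact absurd (hA.mem_toFinset.2 hx) hx'
  refine Integrable.congr ?_ h1.symm
  apply integrable_finsetSum
  intro a _
  exact (integrable_const _).indicator (measurableSet_singleton a)

/-- **Strict Ruelle inequality for all invariant measures.** There are a compact connected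
two-dimensional analytic manifold `M` without boundary and a real-analytic diffeomorphism `f` of
`M` such that, for every choice of inner products on the tangent spaces and every `f`-invariant
Borel probability measure `ρ`:
* `ρ`-almost every point has an Oseledets splitting;
* whenever `χ x` is, for `ρ`-almost every `x`, the sum of the positive Lyapunov exponents at `x`
  counted with multiplicity, `χ` is `ρ`-integrable and the Kolmogorov-Sinai entropy of `ρ` is
  strictly smaller than `∫ χ dρ`. -/
theorem result :
    ∃ (E : Type) (_ : NormedAddCommGroup E) (_ : NormedSpace ℝ E) (H : Type)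
      (_ : TopologicalSpace H) (I : ModelWithCorners ℝ E H) (M : Type) (_ : MetricSpace M)
      (_ : ChartedSpace H M) (_ : MeasurableSpace M) (_ : BorelSpace M)
      (f : Diffeomorph I I M M ω),
      Module.finrank ℝ E = 2 ∧ I.Boundaryless ∧ IsManifold I ω M ∧ CompactSpace M ∧
      ConnectedSpace M ∧
      ∀ (g : Bundle.RiemannianMetric (fun x : M => TangentSpace I x)) (ρ : Measure M),
        IsProbabilityMeasure ρ → MeasurePreserving f ρ ρ →
        (∃ χ : M → ℝ, ∀ᵐ x ∂ρ, IsPositiveExponentSum g f x (χ x)) ∧
        ∀ χ : M → ℝ, (∀ᵐ x ∂ρ, IsPositiveExponentSum g f x (χ x)) →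
          Integrable χ ρ ∧ ksEntropy ρ f < ((∫ x, χ x ∂ρ : ℝ) : EReal) := by
  let mT : MeasurableSpace T2 := borel T2
  have bT : BorelSpace T2 := ⟨rfl⟩
  refine ⟨E2, inferInstance, inferInstance,
    ModelProd (EuclideanSpace ℝ (Fin 1)) (EuclideanSpace ℝ (Fin 1)), inferInstance, I2, T2,
    inferInstance, inferInstance, mT, bT, f, by simp, inferInstance, inferInstance,
    inferInstance, ?_, ?_⟩
  · have h1 : Function.Surjective (Circle.exp : ℝ → Circle) := Circle.exp_surjective
    have : ConnectedSpace Circle := h1.connectedSpace Circle.exp.continuous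
    infer_instance
  · intro g ρ hρ hf
    have hS := ae_mem_S hf
    constructor
    · classical
      refine ⟨fun z => if hz : z ∈ S then (exists_posExpSum' g hz).1.choose else 0, ?_⟩
      filter_upwards [hS] with z hz
      rw [dif_pos hz]
      exact (exists_posExpSum' g hz).1.choose_spec
    · intro χ hχ
      have hint : Integrable χ ρ := integrable_of_finite finite_S hS χ
      refine ⟨hint, ?_⟩
      have hpos : ∀ᵐ z ∂ρ, 0 < χ z := by
        filter_upwards [hS, hχ] with z hz h
        exact (exists_posExpSum' g hz).2 _ h
      have hfix : ∀ᵐ z ∂ρ, f z = z := by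
        filter_upwards [hS] with z hz
        exact f_fixed hz
      rw [ksEntropy_eq_zero ρ hfix]
      have h2 : 0 < ∫ x, χ x ∂ρ := by
        rw [integral_pos_iff_support_of_nonneg_ae (hpos.mono fun z hz => hz.le) hint]
        have h3 : ρ (Function.support χ)ᶜ = 0 := by
          have : ∀ᵐ z ∂ρ, z ∈ Function.support χ := hpos.mono fun z hz => hz.ne'
          exact this
        rw [pos_iff_ne_zero]
        intro h4
        have h5 : ρ univ ≤ ρ (Function.support χ) + ρ (Function.support χ)ᶜ := by
          rw [← union_compl_self (Function.support χ)]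
          exact measure_union_le _ _
        rw [h3, h4, measure_univ, add_zero] at h5
        exact absurd h5 (by simp)
      exact_mod_cast h2

end Pool.Agent.Results.MP_794bd6_an.StrictRuelle
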